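import Mathlib
import Pool.Agent.Q105.KG.Check

/-!
# `MP_573991_co`: Kneser graphs without an alternating orientation

For all `m ≥ 1` and `8 m ≤ n < 9 m` (for instance `(n, k) = (8, 3)`) the Kneser graph
`KG(n, 3 m)` has no orientation in which every shortest odd cycle is alternating.
-/

namespace Pool.Agent.Results.MP_573991_co.NoAlternating

open Finset Pool.Agent.Q105.KG

/-- The Kneser graph `KG(n,k)`: vertices are the `k`-element subsets of an `n`-element set,
two (different) vertices are adjacent iff they are disjoint. -/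
def kneser (n k : ℕ) : SimpleGraph {s : Finset (Fin n) // s.card = k} where
  Adj s t := s ≠ t ∧ Disjoint s.1 t.1
  symm := ⟨fun _ _ h => ⟨h.1.symm, h.2.symm⟩⟩
  loopless := ⟨fun _ h => h.1 rfl⟩

/-- An orientation of a graph: each edge gets exactly one of its two directions. -/
structure Orientation {V : Type*} (G : SimpleGraph V) where
  /-- `arc u v`: there is an arc from `u` to `v` -/
  arc : V → V → Prop
  adj_of_arc : ∀ {u v : V}, arc u v → G.Adj u v
  total : ∀ {u v : V}, G.Adj u v → arc u v ∨ arc v u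
  asymm : ∀ {u v : V}, arc u v → ¬ arc v u

/-- `f` describes a cycle of length `m` of `G`: the vertices `f 0, f 1, …, f (m-1)` are
distinct, and consecutive ones (cyclically) are adjacent. -/
def IsCycle {V : Type*} (G : SimpleGraph V) (m : ℕ) (f : ZMod m → V) : Prop :=
  3 ≤ m ∧ Function.Injective f ∧ ∀ i, G.Adj (f i) (f (i + 1))

/-- `f` describes an odd cycle of `G` of the smallest length. -/
def IsShortestOddCycle {V : Type*} (G : SimpleGraph V) (m : ℕ) (f : ZMod m → V) : Prop :=
  IsCycle G m f ∧ Odd m ∧ ∀ (m' : ℕ) (f' : ZMod m' → V), IsCycle G m' f' → Odd m' → m ≤ m'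

/-- The `i`-th vertex of the cycle has positive in-degree and positive out-degree
inside the cycle. -/
def Mixed {V : Type*} {G : SimpleGraph V} (o : Orientation G) {m : ℕ} (f : ZMod m → V)
    (i : ZMod m) : Prop :=
  (o.arc (f (i - 1)) (f i) ∨ o.arc (f (i + 1)) (f i)) ∧
    (o.arc (f i) (f (i - 1)) ∨ o.arc (f i) (f (i + 1)))

/-- The oriented cycle is alternating: exactly one vertex has positive in-degree and
positive out-degree inside the cycle. -/
def Alternating {V : Type*} {G : SimpleGraph V} (o : Orientation G) {m : ℕ}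
    (f : ZMod m → V) : Prop :=
  ∃! i, Mixed o f i

/-- `G` has an orientation in which every shortest odd cycle is alternating. -/
def HasAlternatingOrientation {V : Type*} (G : SimpleGraph V) : Prop :=
  ∃ o : Orientation G, ∀ (m : ℕ) (f : ZMod m → V), IsShortestOddCycle G m f → Alternating o f

/-- the set of a mask, blown up by the factor `m` -/
def dset (n m u : ℕ) : Finset (Fin n) := univ.filter (fun x => u.testBit ((x : ℕ) / m))

theorem isv_facts : ∀ u : Fin 256, isv u = true →
    ((range 8).filter (fun i => (u : ℕ).testBit i = true)).card = 3 := by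
  decide +kernel

theorem isv_lt {u : ℕ} (h : isv u = true) : u < 256 := by
  by_contra hc
  have h2 : vmask < 2 ^ u := lt_of_lt_of_le (show vmask < 2 ^ 256 by decide +kernel)
    (Nat.pow_le_pow_right (by norm_num) (by omega))
  have := Nat.testBit_lt_two_pow h2
  simp only [isv] at h
  rw [h] at this
  exact absurd this (by simp)

theorem bit_lt {u i : ℕ} (hu : u < 256) (h : u.testBit i = true) : i < 8 := by
  by_contra hc
  have h2 : u < 2 ^ i := lt_of_lt_of_le hu
    (show 2 ^ 8 ≤ 2 ^ i from Nat.pow_le_pow_right (by norm_num) (by omega))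
  rw [Nat.testBit_lt_two_pow h2] at h
  exact absurd h (by simp)

theorem card_dset {n m u : ℕ} (hm : 1 ≤ m) (hn : 8 * m ≤ n) (hu : isv u = true) :
    (dset n m u).card = 3 * m := by
  have hu8 := isv_lt hu
  have h3 := isv_facts ⟨u, hu8⟩ hu
  simp only at h3
  have : (dset n m u).card
      = (((range 8).filter (fun i => u.testBit i = true)) ×ˢ (range m)).card := by
    symm
    apply Finset.card_bij (fun (p : ℕ × ℕ) hp => (⟨p.1 * m + p.2, by
      simp only [mem_product, mem_filter, mem_range] at hp
      obtain ⟨⟨h1, -⟩, h2⟩ := hp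
      calc p.1 * m + p.2 < p.1 * m + m := by omega
        _ = (p.1 + 1) * m := by ring
        _ ≤ 8 * m := Nat.mul_le_mul_right _ (by omega)
        _ ≤ n := hn⟩ : Fin n))
    · rintro ⟨i, j⟩ hp
      simp only [mem_product, mem_filter, mem_range] at hp
      simp only [dset, mem_filter, mem_univ, true_and]
      rw [Nat.mul_comm, Nat.mul_add_div (by omega), Nat.div_eq_of_lt hp.2]
      simpa using hp.1.2
    · rintro ⟨i, j⟩ hp ⟨i', j'⟩ hp' he
      simp only [mem_product, mem_filter, mem_range] at hp hp'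
      simp only [Fin.mk.injEq] at he
      have e1 : (i * m + j) / m = i := by
        rw [Nat.mul_comm, Nat.mul_add_div (by omega), Nat.div_eq_of_lt hp.2]; simp
      have e2 : (i' * m + j') / m = i' := by
        rw [Nat.mul_comm, Nat.mul_add_div (by omega), Nat.div_eq_of_lt hp'.2]; simp
      have e3 : i = i' := by rw [← e1, ← e2, he]
      subst e3
      simp only [Prod.mk.injEq, true_and]
      omega
    · rintro x hx
      simp only [dset, mem_filter, mem_univ, true_and] at hx
      refine ⟨((x : ℕ) / m, (x : ℕ) % m), ?_, ?_⟩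
      · simp only [mem_product, mem_filter, mem_range]
        exact ⟨⟨bit_lt hu8 hx, hx⟩, Nat.mod_lt _ (by omega)⟩
      · apply Fin.ext
        simp only
        rw [Nat.mul_comm]; exact Nat.div_add_mod _ _
  rw [this, card_product, h3, card_range]

/-- the vertex of a mask -/
def vert {n m : ℕ} (hm : 1 ≤ m) (hn : 8 * m ≤ n) {u : ℕ} (hu : isv u = true) :
    {s : Finset (Fin n) // s.card = 3 * m} := ⟨dset n m u, card_dset hm hn hu⟩

theorem dset_ne {n m u v : ℕ} (hm : 1 ≤ m) (hn : 8 * m ≤ n) (hu : isv u = true)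
    (hv : isv v = true) (h : u ≠ v) : dset n m u ≠ dset n m v := by
  intro he
  apply h
  apply Nat.eq_of_testBit_eq
  intro i
  by_cases hi : i < 8
  · have hlt : i * m < n := by
      calc i * m < i * m + m := by omega
        _ = (i + 1) * m := by ring
        _ ≤ 8 * m := Nat.mul_le_mul_right _ (by omega)
        _ ≤ n := hn
    have h1 : (⟨i * m, hlt⟩ : Fin n) ∈ dset n m u ↔ (⟨i * m, hlt⟩ : Fin n) ∈ dset n m v := by
      rw [he]
    simp only [dset, mem_filter, mem_univ, true_and] at h1
    rw [Nat.mul_div_cancel _ (by omega)] at h1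
    rw [Bool.eq_iff_iff]; exact h1
  · have hu8 : u.testBit i = false := by
      by_contra hc
      exact hi (bit_lt (isv_lt hu) (by simpa using hc))
    have hv8 : v.testBit i = false := by
      by_contra hc
      exact hi (bit_lt (isv_lt hv) (by simpa using hc))
    rw [hu8, hv8]

theorem dset_disj {n m u v : ℕ} (h : adj u v = true) :
    Disjoint (dset n m u) (dset n m v) := by
  simp only [adj, Bool.and_eq_true] at h
  have h0 : Nat.land u v = 0 := Nat.eq_of_beq_eq_true h.2
  rw [Finset.disjoint_left]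
  intro x hx hy
  simp only [dset, mem_filter, mem_univ, true_and] at hx hy
  have : (u &&& v).testBit ((x : ℕ) / m) = true := by
    rw [Nat.testBit_and, hx, hy]; rfl
  have h0' : u &&& v = 0 := h0
  rw [h0'] at this
  simp at this

theorem adj_left {u v : ℕ} (h : adj u v = true) : isv u = true := by
  simp only [adj, Bool.and_eq_true] at h; exact h.1.1

theorem adj_right {u v : ℕ} (h : adj u v = true) : isv v = true := by
  simp only [adj, Bool.and_eq_true] at h; exact h.1.2

theorem adj_ne {u v : ℕ} (h : adj u v = true) : u ≠ v := by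
  rintro rfl
  have hu := adj_left h
  simp only [adj, Bool.and_eq_true] at h
  have h0 : Nat.land u u = 0 := Nat.eq_of_beq_eq_true h.2
  have h0' : u &&& u = 0 := h0
  rw [Nat.and_self] at h0'
  subst h0'
  exact absurd hu (by decide +kernel)

theorem vert_adj {n m u v : ℕ} (hm : 1 ≤ m) (hn : 8 * m ≤ n) (h : adj u v = true) :
    (kneser n (3 * m)).Adj (vert hm hn (adj_left h)) (vert hm hn (adj_right h)) := by
  refine ⟨?_, dset_disj h⟩
  intro he
  exact dset_ne hm hn (adj_left h) (adj_right h) (adj_ne h) (congrArg Subtype.val he)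

/-- There is no odd cycle of length below `5`. -/
theorem five_le {n m : ℕ} (hn : n < 9 * m) (m' : ℕ)
    (f' : ZMod m' → {s : Finset (Fin n) // s.card = 3 * m})
    (h : IsCycle (kneser n (3 * m)) m' f') (ho : Odd m') : 5 ≤ m' := by
  obtain ⟨h3, -, hadj⟩ := h
  by_contra hc
  have : m' = 3 := by
    obtain ⟨r, hr⟩ := ho
    omega
  subst this
  have h01 := (hadj 0).2
  have h12 := (hadj 1).2
  have h20 := (hadj 2).2
  have e2 : (2 : ZMod 3) + 1 = 0 := by decide
  have e1 : (1 : ZMod 3) + 1 = 2 := by decide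
  have e0 : (0 : ZMod 3) + 1 = 1 := by decide
  rw [e0] at h01
  rw [e1] at h12
  rw [e2] at h20
  have hd : Disjoint ((f' 0).1 ∪ (f' 1).1) (f' 2).1 := by
    rw [Finset.disjoint_union_left]
    exact ⟨h20.symm, h12⟩
  have hcard : (((f' 0).1 ∪ (f' 1).1) ∪ (f' 2).1).card = 9 * m := by
    rw [Finset.card_union_of_disjoint hd, Finset.card_union_of_disjoint h01,
      (f' 0).2, (f' 1).2, (f' 2).2]
    ring
  have hle := Finset.card_le_univ (((f' 0).1 ∪ (f' 1).1) ∪ (f' 2).1)
  rw [hcard, Fintype.card_fin] at hle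
  omega

/-- The `5`-cycle of five masks. -/
theorem cycle5 {n m : ℕ} (hm : 1 ≤ m) (hn : 8 * m ≤ n) (hn9 : n < 9 * m) {a b c d e : ℕ}
    (h : cyc a b c d e = true) :
    ∃ (ha : isv a = true) (hb : isv b = true) (hc : isv c = true) (hd : isv d = true)
      (he : isv e = true),
      IsShortestOddCycle (kneser n (3 * m)) 5
        (![vert hm hn ha, vert hm hn hb, vert hm hn hc, vert hm hn hd, vert hm hn he] :
          Fin 5 → {s : Finset (Fin n) // s.card = 3 * m}) := by
  simp only [cyc, Bool.and_eq_true, Bool.not_eq_true'] at h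
  obtain ⟨⟨⟨⟨⟨⟨⟨⟨⟨h1, h2⟩, h3⟩, h4⟩, h5⟩, h6⟩, h7⟩, h8⟩, h9⟩, h10⟩ := h
  have hac : a ≠ c := Nat.ne_of_beq_eq_false h6
  have had : a ≠ d := Nat.ne_of_beq_eq_false h7
  have hbd : b ≠ d := Nat.ne_of_beq_eq_false h8
  have hbe : b ≠ e := Nat.ne_of_beq_eq_false h9
  have hce : c ≠ e := Nat.ne_of_beq_eq_false h10
  have hva := adj_left h1
  have hvb := adj_left h2
  have hvc := adj_left h3
  have hvd := adj_left h4
  have hve := adj_left h5
  refine ⟨hva, hvb, hvc, hvd, hve, ?_, by decide, fun m' f' h' ho => five_le hn9 m' f' h' ho⟩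
  have key : ∀ {u v : ℕ} (hu : isv u = true) (hv : isv v = true), u ≠ v →
      vert hm hn hu ≠ vert hm hn hv := by
    intro u v hu hv huv he'
    exact dset_ne hm hn hu hv huv (congrArg Subtype.val he')
  refine ⟨by norm_num, ?_, ?_⟩
  · intro i j hij
    change Fin 5 at i j
    have n01 := key hva hvb (adj_ne h1)
    have n02 := key hva hvc hac
    have n03 := key hva hvd had
    have n04 := key hve hva (adj_ne h5)
    have n12 := key hvb hvc (adj_ne h2)
    have n13 := key hvb hvd hbd
    have n14 := key hvb hve hbe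
    have n23 := key hvc hvd (adj_ne h3)
    have n24 := key hvc hve hce
    have n34 := key hvd hve (adj_ne h4)
    fin_cases i <;> fin_cases j <;> first
      | rfl
      | exact absurd hij n01
      | exact absurd hij n01.symm
      | exact absurd hij n02
      | exact absurd hij n02.symm
      | exact absurd hij n03
      | exact absurd hij n03.symm
      | exact absurd hij n04
      | exact absurd hij n04.symm
      | exact absurd hij n12
      | exact absurd hij n12.symm
      | exact absurd hij n13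
      | exact absurd hij n13.symm
      | exact absurd hij n14
      | exact absurd hij n14.symm
      | exact absurd hij n23
      | exact absurd hij n23.symm
      | exact absurd hij n24
      | exact absurd hij n24.symm
      | exact absurd hij n34
      | exact absurd hij n34.symm
  · intro i
    change Fin 5 at i
    fin_cases i
    · exact vert_adj hm hn h1
    · exact vert_adj hm hn h2
    · exact vert_adj hm hn h3
    · exact vert_adj hm hn h4
    · exact vert_adj hm hn h5

theorem main {n m : ℕ} (hm : 1 ≤ m) (hn : 8 * m ≤ n) (hn9 : n < 9 * m) :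
    ¬ HasAlternatingOrientation (kneser n (3 * m)) := by
  rintro ⟨o, ho⟩
  apply not_good (fun u v => ∃ (hu : isv u = true) (hv : isv v = true),
    o.arc (vert hm hn hu) (vert hm hn hv))
  refine ⟨?_, ?_, ?_, ?_⟩
  · intro a b h
    rcases o.total (vert_adj hm hn h) with h' | h'
    · exact Or.inl ⟨_, _, h'⟩
    · exact Or.inr ⟨_, _, h'⟩
  · rintro a b c d e h ⟨⟨_, _, h1⟩, ⟨_, _, h2⟩, ⟨_, _, h3⟩⟩
    obtain ⟨ha, hb, hc, hd, he, hs⟩ := cycle5 hm hn hn9 h
    obtain ⟨i, -, hi⟩ := ho _ _ hs
    have e1 := hi (1 : Fin 5) ⟨Or.inl h1, Or.inr h2⟩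
    have e2 := hi (2 : Fin 5) ⟨Or.inl h2, Or.inr h3⟩
    have : (1 : Fin 5) = 2 := e1.trans e2.symm
    exact absurd this (by decide)
  · rintro a b c d e h ⟨⟨_, _, h1⟩, ⟨_, _, h2⟩, ⟨_, _, h3⟩, ⟨_, _, h4⟩⟩
    obtain ⟨ha, hb, hc, hd, he, hs⟩ := cycle5 hm hn hn9 h
    obtain ⟨i, -, hi⟩ := ho _ _ hs
    have e1 := hi (1 : Fin 5) ⟨Or.inl h1, Or.inr h2⟩
    have e2 := hi (3 : Fin 5) ⟨Or.inr h4, Or.inl h3⟩
    have : (1 : Fin 5) = 3 := e1.trans e2.symm
    exact absurd this (by decide)
  · rintro a b c d e h ⟨⟨_, _, h1⟩, ⟨_, _, h2⟩, ⟨_, _, h3⟩, ⟨_, _, h4⟩⟩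
    obtain ⟨ha, hb, hc, hd, he, hs⟩ := cycle5 hm hn hn9 h
    obtain ⟨i, -, hi⟩ := ho _ _ hs
    have e1 := hi (1 : Fin 5) ⟨Or.inr h2, Or.inl h1⟩
    have e2 := hi (3 : Fin 5) ⟨Or.inl h3, Or.inr h4⟩
    have : (1 : Fin 5) = 3 := e1.trans e2.symm
    exact absurd this (by decide)

/-- **Main result.** For all `m ≥ 1` and `8 m ≤ n < 9 m` the Kneser graph `KG(n, 3m)` has no
orientation in which every shortest odd cycle is alternating; for example `KG(8,3)`.
Hence the answer to Q1 is negative. -/
theorem result :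
    (∀ n m : ℕ, 1 ≤ m → 8 * m ≤ n → n < 9 * m →
      ¬ HasAlternatingOrientation (kneser n (3 * m))) ∧
    ¬ (∀ n k : ℕ, 2 ≤ 2 * k → 2 * k ≤ n → HasAlternatingOrientation (kneser n k)) :=
  ⟨fun n m hm hn hn9 => main hm hn hn9,
    fun h => main (n := 8) (m := 1) (by norm_num) (by norm_num) (by norm_num)
      (h 8 (3 * 1) (by norm_num) (by norm_num))⟩

end Pool.Agent.Results.MP_573991_co.NoAlternating
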